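import Pool.Agent.Lib.MP_638764_al.Main

/-!
# Terms without orthogonal joins

`OrthoLattice`, `IsOML`, `Nnf` (terms in negation normal form), `Nnf.eval`, `Nnf.joins` and `Nnf.NoOrthogonalJoin` are
defined in `Pool/Agent/Lib/MP_638764_al/Defs.lean`. The consequence for identities `s ≈ t` between arbitrary terms is in
`Pool/Agent/Lib/MP_638764_al/Identities.lean`.
-/

open Pool.Agent.Lib.MP_638764_al

namespace Pool.Agent.Results.MP_638764_al.OrthogonalJoin

universe u

/-- Let `t` be a term in negation normal form without orthogonal joins. If `t` is `0` in every finite orthomodular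
lattice, then `t` is `0` in every ortholattice, in particular in every orthomodular lattice. -/
theorem result (t : Nnf) (ht : Nnf.NoOrthogonalJoin.{u} t)
    (hfin : ∀ (N : Type) [OrthoLattice N] [Finite N], IsOML N → ∀ x : ℕ → N, t.eval x = ⊥)
    (L : Type u) [OrthoLattice L] (x : ℕ → L) : t.eval x = ⊥ :=
  nnf_main t ht hfin L x

end Pool.Agent.Results.MP_638764_al.OrthogonalJoin
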